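import Pool.Agent.Q170.RN.Main

/-! No algorithm beats sketch-and-solve with a random orthonormal embedding in the worst case. -/

namespace Pool.Agent.Results.MP_467638_an.SketchLowerBound
open MeasureTheory Matrix Q170.RN

/-- For every random matrix `Ω` (of law `μ`) and every measurable algorithm, the worst-case error
ratio is at least `1 + (n-ℓ)/(n-r) · r/(ℓ-r-α)`, with `α = 1` over `ℝ` and `α = 0` over `ℂ`. -/
theorem result :
    (∀ n ℓ d p r : ℕ, ℓ ≤ n → r ≤ d → 1 ≤ p → r + 1 < ℓ →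
      ∀ μ : Measure (Matrix (Fin n) (Fin ℓ) ℝ), IsProbabilityMeasure μ →
      ∀ ALG : Matrix (Fin n) (Fin ℓ) ℝ × Matrix (Fin ℓ) (Fin d) ℝ × Matrix (Fin ℓ) (Fin p) ℝ →
        Matrix (Fin d) (Fin p) ℝ, Measurable ALG →
      ENNReal.ofReal (1 + ((n : ℝ) - ℓ) / ((n : ℝ) - r) * ((r : ℝ) / ((ℓ : ℝ) - r - 1))) ≤
        worst r μ ALG) ∧
    (∀ n ℓ d p r : ℕ, ℓ ≤ n → r ≤ d → 1 ≤ p → r < ℓ →
      ∀ μ : Measure (Matrix (Fin n) (Fin ℓ) ℂ), IsProbabilityMeasure μ →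
      ∀ ALG : Matrix (Fin n) (Fin ℓ) ℂ × Matrix (Fin ℓ) (Fin d) ℂ × Matrix (Fin ℓ) (Fin p) ℂ →
        Matrix (Fin d) (Fin p) ℂ, Measurable ALG →
      ENNReal.ofReal (1 + ((n : ℝ) - ℓ) / ((n : ℝ) - r) * ((r : ℝ) / ((ℓ : ℝ) - r))) ≤
        worst r μ ALG) := by
  constructor
  · intro n ℓ d p r hℓ hr hp hrl μ hμ ALG hALG
    have h := main (𝕜 := ℝ) (a := 1) hℓ hr hp (by
      change (1 : ℝ) = bet ℝ * ((1 : ℕ) : ℝ)
      rw [bet_eq]
      change (1 : ℝ) = (2 - 1) * ((1 : ℕ) : ℝ)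
      norm_num) hrl μ ALG hALG
    simpa using h
  · intro n ℓ d p r hℓ hr hp hrl μ hμ ALG hALG
    have h := main (𝕜 := ℂ) (a := 0) hℓ hr hp (by
      change (0 : ℝ) = bet ℂ * ((0 : ℕ) : ℝ)
      simp) (by simpa using hrl) μ ALG hALG
    simpa using h

end Pool.Agent.Results.MP_467638_an.SketchLowerBound
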